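import Pool.Agent.Helper24K9.PL.One

set_option autoImplicit false

/-! Two linear forms: the weights of the primes against the classes modulo the product of the small primes. -/

namespace Pool.Agent.Helper24K9.PL

open Finset Filter Pool.Agent.Helper82K9.PR

/-- two points with the given difference -/
def tw (w : ℕ) : Fin 2 → ℕ := ![w, 0]

lemma tw_inj (w : ℕ) (hw : 1 ≤ w) : Function.Injective (tw w) := by
  intro a b hab
  fin_cases a <;> fin_cases b <;> simp [tw] at hab ⊢ <;> omega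

lemma wd_tw (w : ℕ) (b : Fin 2) : wd (tw w) b = w := by
  unfold wd tw
  fin_cases b
  · have : (univ : Finset (Fin 2)).erase 0 = {1} := by decide
    simp [this]
  · have : (univ : Finset (Fin 2)).erase 1 = {0} := by decide
    simp [this]

lemma mo_tw (W w : ℕ) (b : Fin 2) : mo W (tw w) b = W * w := by
  have h := wd_tw w b
  unfold wd at h
  unfold mo
  rw [h]

/-- comparison of the models for two factors -/
lemma model2 (z w : ℕ) (hw : 1 ≤ w) (x y : ℤ) :
    |MM (primorial z * w) x * MM (primorial z * w) y - MM (primorial z) x * MM (primorial z) y| ≤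
      Cz z ^ 2 * ((GG z w ^ 2 - 1) + ∑ p ∈ LP z w, (dv p x + dv p y)) ∧
    |MM (primorial z * w) x * MM (primorial z) y - MM (primorial z) x * MM (primorial z) y| ≤
      Cz z ^ 2 * ((GG z w ^ 2 - 1) + ∑ p ∈ LP z w, (dv p x + dv p y)) := by
  have h1 := prod_model z (tw w) (tw_inj w hw) univ (![x, y])
  have h2 := prod_model z (tw w) (tw_inj w hw) {0} (![x, y])
  unfold PB at h1 h2
  simp only [Fin.prod_univ_two, Fin.sum_univ_two, mo_tw, wd_tw, mem_univ, if_true, mem_singleton, Matrix.cons_val_zero,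
    Matrix.cons_val_one, Fintype.card_fin, one_ne_zero, if_false] at h1 h2
  have e : GG z w * GG z w - 1 + (∑ p ∈ LP z w, dv p x + ∑ p ∈ LP z w, dv p y) =
      (GG z w ^ 2 - 1) + ∑ p ∈ LP z w, (dv p x + dv p y) := by
    rw [sum_add_distrib]; ring
  rw [e] at h1 h2
  exact ⟨h1, h2⟩

lemma MMq_le (z w : ℕ) (hw : 1 ≤ w) (x : ℤ) : MM (primorial z * w) x ≤ Cz z * GG z w := by
  rw [mm_eq z w (by omega)]
  have h4 : JJ z w x ≤ 1 := by unfold JJ; split_ifs <;> norm_num
  have h4' : 0 ≤ JJ z w x := by unfold JJ; split_ifs <;> norm_num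
  have hG := one_le_GG z w
  have h5 : GG z w * JJ z w x ≤ GG z w := by nlinarith
  have hC := Cz_ge z
  exact mul_le_mul (MM_le_Cz z _) h5 (mul_nonneg (by linarith) h4') (by linarith)

theorem comb (hcnt : S_CNT) : S_COMB := by
  intro B0 C η hη z
  set δ : ℝ := min η 1 / 3 with hδ
  have hδ0 : 0 < δ := by rw [hδ]; have := lt_min hη one_pos; positivity
  have hδ1 : δ ≤ 1 := by rw [hδ]; have := min_le_right η 1; linarith
  have hδη : 2 * δ + δ ^ 2 ≤ min η 1 := by
    have : δ ^ 2 ≤ δ := by nlinarith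
    rw [hδ] at this ⊢
    linarith
  obtain ⟨H1, hH1, hos⟩ := one_step2 B0 1 (2 * B0 + 3) C δ hδ0 hδ1
  have hlog : Tendsto (fun n : ℕ => Real.log n) atTop atTop := Real.tendsto_log_atTop.comp tendsto_natCast_atTop_atTop
  have e5 := hlog.eventually_ge_atTop (max (primorial z : ℝ) (max (3 / η) 16))
  have e6 := (tendsto_natCast_atTop_atTop (R := ℝ)).eventually
    ((Real.isLittleO_pow_log_id_atTop (n := 1 + 4 * B0)).def (show (0 : ℝ) < 1 by norm_num))
  obtain ⟨H2, h0⟩ := (e5.and e6).exists_forall_of_atTop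
  refine ⟨max H1 H2, hH1.trans (le_max_left _ _), fun H hH X hX1 hXH a b c a' b' c' ha hb ha' hb' hc hc' hD hp hp' => ?_⟩
  obtain ⟨h1, h2⟩ := h0 H ((le_max_right _ _).trans hH)
  have hos1 := hos H ((le_max_left _ _).trans hH)
  have hH3 : 3 ≤ H := hH1.trans ((le_max_left _ _).trans hH)
  have hW := primorial_pos z
  set L := Real.log H with hL
  have hLW : (primorial z : ℝ) ≤ L := (le_max_left _ _).trans h1
  have hLη : 3 / η ≤ L := (le_max_left _ _).trans ((le_max_right _ _).trans h1)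
  have hL16 : 16 ≤ L := (le_max_right _ _).trans ((le_max_right _ _).trans h1)
  have hL1 : 1 ≤ L := by linarith
  have hL0 : 0 < L := by linarith
  have hHr : (0 : ℝ) < H := by exact_mod_cast (by omega : 0 < H)
  have hLH : L ^ (1 + 4 * B0) ≤ H := by
    simp only [id, Real.norm_eq_abs] at h2
    rw [abs_of_nonneg (by positivity), abs_of_nonneg hHr.le] at h2
    linarith
  set D : ℤ := a * b' - a' * b with hDdef
  set w : ℕ := D.natAbs with hw
  have hw1 : 1 ≤ w := Int.natAbs_pos.2 hD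
  have hDr : ((w : ℕ) : ℝ) ≤ 2 * (X : ℝ) ^ 2 := by
    have e1 : ((D.natAbs : ℕ) : ℝ) = |(D : ℝ)| := by
      rw [Nat.cast_natAbs, Int.cast_abs]
    rw [hw, e1, hDdef]
    push_cast
    calc |(a : ℝ) * b' - a' * b| ≤ |(a : ℝ) * b'| + |(a' : ℝ) * b| := abs_sub _ _
      _ ≤ X * X + X * X := by rw [abs_mul, abs_mul]; gcongr
      _ = _ := by ring
  have hwL : (w : ℝ) ≤ 2 * L ^ (2 * B0) := by
    refine hDr.trans ?_
    have : (X : ℝ) ^ 2 ≤ (L ^ B0) ^ 2 := by gcongr
    rw [← pow_mul, mul_comm B0 2] at this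
    linarith
  have hDsw : a' * b - a * b' ≠ 0 := by
    intro h; apply hD; rw [hDdef]; linarith
  have hwsw : (a' * b - a * b').natAbs = w := by
    rw [hw, hDdef, ← Int.natAbs_neg]; congr 1; ring
  set W := primorial z with hWd
  set N : ℝ := ((Bx 1 H).card : ℝ) with hN
  have hN0 : 0 ≤ N := Nat.cast_nonneg _
  have hCz := Cz_ge z
  set S := sg z w with hS
  have hS0 : 0 ≤ S := sg_nonneg z w
  -- the powers of `L` bounding the weights
  have hq : ((W * w : ℕ) : ℝ) ≤ L ^ (2 * B0 + 3) := by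
    push_cast
    calc (W : ℝ) * w ≤ L * (2 * L ^ (2 * B0)) := by gcongr
      _ ≤ L * (L * L ^ (2 * B0)) := by gcongr; linarith
      _ = L ^ (2 * B0 + 2) := by ring
      _ ≤ L ^ (2 * B0 + 3) := pow_le_pow_right₀ hL1 (by omega)
  have hk1 : L ≤ L ^ (2 * B0 + 3) := le_self_pow₀ hL1 (by omega)
  have one1 : ∀ Φ : ℤ → ℝ, (∀ u, 0 ≤ Φ u) → (∀ u, Φ u ≤ L ^ (2 * B0 + 3)) →
      |∑ v ∈ Bx 1 H, om L (lf a b c v) * Φ (lf a' b' c' v) -
        ∑ v ∈ Bx 1 H, MM (W * w) (lf a b c v) * Φ (lf a' b' c' v)| ≤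
        δ * ∑ v ∈ Bx 1 H, MM (W * w) (lf a b c v) * Φ (lf a' b' c' v) + N / L := by
    intro Φ hΦ0 hΦ1
    have := hos1 W X hW hLW hX1 hXH a b c a' b' c' ha hb ha' hb' hc hD Φ hΦ0 hΦ1
    rw [pow_one] at this
    exact this
  have two1 : ∀ Φ : ℤ → ℝ, (∀ u, 0 ≤ Φ u) → (∀ u, Φ u ≤ L ^ (2 * B0 + 3)) →
      |∑ v ∈ Bx 1 H, om L (lf a' b' c' v) * Φ (lf a b c v) -
        ∑ v ∈ Bx 1 H, MM (W * w) (lf a' b' c' v) * Φ (lf a b c v)| ≤
        δ * ∑ v ∈ Bx 1 H, MM (W * w) (lf a' b' c' v) * Φ (lf a b c v) + N / L := by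
    intro Φ hΦ0 hΦ1
    have := hos1 W X hW hLW hX1 hXH a' b' c' a b c ha' hb' ha hb hc' hDsw Φ hΦ0 hΦ1
    rw [pow_one, hwsw] at this
    exact this
  -- the size of the models
  have hG1 := one_le_GG z w
  have hGe : GG z w ≤ Real.exp (2 * S) := GG_le z w
  have hGe2 : GG z w ^ 2 ≤ Real.exp (4 * S) := by
    have : Real.exp (4 * S) = Real.exp (2 * S) ^ 2 := by rw [← Real.exp_nat_mul]; congr 1; push_cast; ring
    rw [this]
    exact pow_le_pow_left₀ (by linarith) hGe 2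
  have hexp1 : 1 ≤ Real.exp (4 * S) := Real.one_le_exp (by positivity)
  have hsizeq : ∀ v, MM (W * w) (lf a b c v) * MM (W * w) (lf a' b' c' v) ≤ Cz z ^ 2 * Real.exp (4 * S) := by
    intro v
    calc _ ≤ (Cz z * GG z w) * (Cz z * GG z w) :=
          mul_le_mul (MMq_le z w hw1 _) (MMq_le z w hw1 _) (MM_nonneg _ _) (by positivity)
      _ = Cz z ^ 2 * GG z w ^ 2 := by ring
      _ ≤ _ := by gcongr
  have hsizez : ∀ v, MM (W * w) (lf a b c v) * MM W (lf a' b' c' v) ≤ Cz z ^ 2 * Real.exp (4 * S) := by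
    intro v
    calc _ ≤ (Cz z * GG z w) * Cz z :=
          mul_le_mul (MMq_le z w hw1 _) (MM_le_Cz z _) (MM_nonneg _ _) (by positivity)
      _ = Cz z ^ 2 * GG z w := by ring
      _ ≤ Cz z ^ 2 * GG z w ^ 2 := by
          gcongr
          nlinarith
      _ ≤ _ := by gcongr
  -- the comparison of the models
  have hpc : ∀ p ∈ LP z w, ∑ v ∈ Bx 1 H, (dv p (lf a b c v) + dv p (lf a' b' c' v)) ≤ N * (4 * (1 / p)) := by
    intro p hpm
    unfold LP at hpm
    rw [mem_filter] at hpm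
    have hpp := Nat.prime_of_mem_primeFactors hpm.1
    have hpw : (p : ℝ) ≤ w := by exact_mod_cast Nat.le_of_mem_primeFactors hpm.1
    have h4p : 4 * p ^ 2 ≤ 2 * H + 1 := by
      have h5 : (4 : ℝ) * p ^ 2 ≤ 2 * H := by
        calc (4 : ℝ) * p ^ 2 ≤ 4 * (2 * L ^ (2 * B0)) ^ 2 := by
              have : (p : ℝ) ≤ 2 * L ^ (2 * B0) := hpw.trans hwL
              gcongr
          _ = 16 * L ^ (4 * B0) := by ring
          _ ≤ L * L ^ (4 * B0) := by gcongr
          _ = L ^ (1 + 4 * B0) := by ring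
          _ ≤ 2 * H := by linarith
      have h8 : ((4 * p ^ 2 : ℕ) : ℝ) ≤ ((2 * H + 1 : ℕ) : ℝ) := by push_cast; linarith
      exact_mod_cast h8
    rw [sum_add_distrib]
    have g1 := hcnt H p hpp h4p a b c (hp p hpp hpm.2)
    have g2 := hcnt H p hpp h4p a' b' c' (hp' p hpp hpm.2)
    calc _ ≤ 2 * N * (1 / p) + 2 * N * (1 / p) := add_le_add g1 g2
      _ = _ := by ring
  have hmod0 : ∑ v ∈ Bx 1 H, Cz z ^ 2 * ((GG z w ^ 2 - 1) + ∑ p ∈ LP z w, (dv p (lf a b c v) + dv p (lf a' b' c' v))) ≤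
      N * (Cz z ^ 2 * (2 * (Real.exp (4 * S) - 1))) := by
    calc _ = Cz z ^ 2 * (N * (GG z w ^ 2 - 1) + ∑ p ∈ LP z w, ∑ v ∈ Bx 1 H, (dv p (lf a b c v) + dv p (lf a' b' c' v))) := by
          rw [← mul_sum, sum_add_distrib, sum_const, nsmul_eq_mul, sum_comm]
      _ ≤ Cz z ^ 2 * (N * (GG z w ^ 2 - 1) + ∑ p ∈ LP z w, N * (4 * (1 / p))) := by
          gcongr with p hpm
          exact hpc p hpm
      _ = Cz z ^ 2 * (N * (GG z w ^ 2 - 1) + N * (4 * S)) := by
          congr 2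
          rw [hS]
          unfold sg
          rw [mul_sum, mul_sum]
      _ ≤ Cz z ^ 2 * (N * (Real.exp (4 * S) - 1) + N * (Real.exp (4 * S) - 1)) := by
          have h4 := Real.add_one_le_exp (4 * S)
          gcongr
          linarith
      _ = _ := by ring
  have hnum : ∀ X1 T T0 : ℝ, |X1 - T| ≤ min η 1 * T + 3 * (N / L) → T ≤ N * (Cz z ^ 2 * Real.exp (4 * S)) → 0 ≤ T →
      |T - T0| ≤ N * (Cz z ^ 2 * (2 * (Real.exp (4 * S) - 1))) →
      |X1 - T0| ≤ N * (Cz z ^ 2 * (η + 3 * (Real.exp (4 * S) - 1)) + η) := by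
    intro X1 T T0 k1 k2 k3 k4
    have k5 : min η 1 * T ≤ N * (Cz z ^ 2 * (η + (Real.exp (4 * S) - 1))) := by
      calc min η 1 * T ≤ min η 1 * (N * (Cz z ^ 2 * Real.exp (4 * S))) := by
            apply mul_le_mul_of_nonneg_left k2 (le_min hη.le zero_le_one)
        _ = N * (Cz z ^ 2 * (min η 1 + min η 1 * (Real.exp (4 * S) - 1))) := by ring
        _ ≤ _ := by
            have h12 : min η 1 * (Real.exp (4 * S) - 1) ≤ 1 * (Real.exp (4 * S) - 1) :=
              mul_le_mul_of_nonneg_right (min_le_right _ _) (by linarith)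
            have h13 := min_le_left η 1
            apply mul_le_mul_of_nonneg_left _ hN0
            apply mul_le_mul_of_nonneg_left _ (by positivity)
            linarith
    have k6 : 3 * (N / L) ≤ N * η := by
      rw [div_le_iff₀ hη] at hLη
      rw [← mul_div_assoc, div_le_iff₀ hL0]
      nlinarith
    calc |X1 - T0| ≤ |X1 - T| + |T - T0| := abs_sub_le _ _ _
      _ ≤ (N * (Cz z ^ 2 * (η + (Real.exp (4 * S) - 1))) + N * η) +
          N * (Cz z ^ 2 * (2 * (Real.exp (4 * S) - 1))) := by linarith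
      _ = _ := by ring
  have hNL : 0 ≤ N / L := by positivity
  refine ⟨?_, ?_, ?_⟩
  · -- both factors
    set X1 := ∑ v ∈ Bx 1 H, om L (lf a b c v) * om L (lf a' b' c' v) with hX1d
    set X2 := ∑ v ∈ Bx 1 H, MM (W * w) (lf a b c v) * om L (lf a' b' c' v) with hX2d
    set T := ∑ v ∈ Bx 1 H, MM (W * w) (lf a b c v) * MM (W * w) (lf a' b' c' v) with hTd
    have g1 := one1 (om L) (fun u => om_nonneg hL0.le u) (fun u => (om_le hL0.le u).trans hk1)
    have g2 := two1 (MM (W * w)) (fun u => MM_nonneg _ u) (fun u => (MM_le _ u).trans hq)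
    have e1 : ∑ v ∈ Bx 1 H, om L (lf a' b' c' v) * MM (W * w) (lf a b c v) = X2 := by
      rw [hX2d]; exact sum_congr rfl fun v _ => mul_comm _ _
    have e2 : ∑ v ∈ Bx 1 H, MM (W * w) (lf a' b' c' v) * MM (W * w) (lf a b c v) = T := by
      rw [hTd]; exact sum_congr rfl fun v _ => mul_comm _ _
    rw [e1, e2] at g2
    rw [← hX1d, ← hX2d] at g1
    have hT0 : 0 ≤ T := sum_nonneg fun v _ => mul_nonneg (MM_nonneg _ _) (MM_nonneg _ _)
    apply hnum X1 T
    · obtain ⟨a1, a2⟩ := abs_le.1 g1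
      obtain ⟨b1, b2⟩ := abs_le.1 g2
      have h3 : |X1 - T| ≤ δ * X2 + N / L + (δ * T + N / L) :=
        (abs_sub_le _ _ _).trans (add_le_add g1 g2)
      have h4 : δ * X2 ≤ δ * (T + (δ * T + N / L)) := mul_le_mul_of_nonneg_left (by linarith) hδ0.le
      have h5 : δ * (N / L) ≤ 1 * (N / L) := mul_le_mul_of_nonneg_right hδ1 hNL
      have h6 : (2 * δ + δ ^ 2) * T ≤ min η 1 * T := mul_le_mul_of_nonneg_right hδη hT0
      nlinarith
    · calc T ≤ ∑ v ∈ Bx 1 H, Cz z ^ 2 * Real.exp (4 * S) := sum_le_sum fun v _ => hsizeq v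
        _ = _ := by rw [sum_const, nsmul_eq_mul]
    · exact hT0
    · rw [hTd, ← sum_sub_distrib]
      refine (abs_sum_le_sum_abs _ _).trans (le_trans (sum_le_sum fun v _ => ?_) hmod0)
      exact (model2 z w hw1 _ _).1
  · set X1 := ∑ v ∈ Bx 1 H, om L (lf a b c v) * MM W (lf a' b' c' v) with hX1d
    set T := ∑ v ∈ Bx 1 H, MM (W * w) (lf a b c v) * MM W (lf a' b' c' v) with hTd
    have g1 := one1 (MM W) (fun u => MM_nonneg _ u) (fun u => (MM_le _ u).trans (hLW.trans hk1))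
    have hT0 : 0 ≤ T := sum_nonneg fun v _ => mul_nonneg (MM_nonneg _ _) (MM_nonneg _ _)
    apply hnum X1 T
    · refine g1.trans ?_
      have h6 : δ * T ≤ min η 1 * T := by
        apply mul_le_mul_of_nonneg_right _ hT0
        nlinarith
      linarith
    · calc T ≤ ∑ v ∈ Bx 1 H, Cz z ^ 2 * Real.exp (4 * S) := sum_le_sum fun v _ => hsizez v
        _ = _ := by rw [sum_const, nsmul_eq_mul]
    · exact hT0
    · rw [hTd, ← sum_sub_distrib]
      refine (abs_sum_le_sum_abs _ _).trans (le_trans (sum_le_sum fun v _ => ?_) hmod0)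
      exact (model2 z w hw1 _ _).2
  · have g1 := one1 (fun _ => 1) (fun _ => zero_le_one) (fun _ => one_le_pow₀ hL1)
    simp only [mul_one] at g1
    have h3 := (abs_le.1 g1).2
    have h4 : ∑ v ∈ Bx 1 H, MM (W * w) (lf a b c v) ≤ N * (Cz z * Real.exp (2 * S)) := by
      calc _ ≤ ∑ v ∈ Bx 1 H, Cz z * Real.exp (2 * S) := by
            apply sum_le_sum
            intro v _
            refine (MMq_le z w hw1 _).trans ?_
            gcongr
        _ = _ := by rw [sum_const, nsmul_eq_mul]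
    have h5 : 0 ≤ ∑ v ∈ Bx 1 H, MM (W * w) (lf a b c v) := sum_nonneg fun v _ => MM_nonneg _ _
    have h6 : N / L ≤ N := div_le_self hN0 hL1
    have h7 : δ * ∑ v ∈ Bx 1 H, MM (W * w) (lf a b c v) ≤ 1 * ∑ v ∈ Bx 1 H, MM (W * w) (lf a b c v) :=
      mul_le_mul_of_nonneg_right hδ1 h5
    calc _ ≤ 2 * (N * (Cz z * Real.exp (2 * S))) + N := by linarith
      _ = _ := by ring

end Pool.Agent.Helper24K9.PL
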