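import Pool.Agent.Helper24K9.PL.Stm

set_option autoImplicit false

/-! The weights of the primes at the values of a linear form can be replaced by their expected values in classes. -/

namespace Pool.Agent.Helper24K9.PL

open Finset Filter Pool.Agent.Helper82K9.PR

lemma lf_shift (a b c a' b' : ℤ) (s : ℤ) (v : Fin (1 + 1) → ℤ) :
    lf a b c (v + s • (![b', -a'] : Fin (1 + 1) → ℤ)) = lf a b c v + s * (a * b' - a' * b) := by
  unfold lf
  simp only [Pi.add_apply, Pi.smul_apply, smul_eq_mul, Matrix.cons_val_zero, Matrix.cons_val_one]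
  ring

lemma lf_bound (H X : ℕ) (C : ℝ) (a b c : ℤ) (ha : |(a : ℝ)| ≤ X) (hb : |(b : ℝ)| ≤ X) (hc : |(c : ℝ)| ≤ C * H * X)
    (v : Fin (1 + 1) → ℤ) (hv : v ∈ Bx 1 H) : |((lf a b c v : ℤ) : ℝ)| ≤ (2 + max C 0) * H * X := by
  unfold Bx at hv
  rw [Fintype.mem_piFinset] at hv
  have h0 := mem_Icc.1 (hv 0)
  have h1 := mem_Icc.1 (hv 1)
  have h0' : |((v 0 : ℤ) : ℝ)| ≤ H := by
    rw [abs_le]; exact ⟨by exact_mod_cast h0.1, by exact_mod_cast h0.2⟩
  have h1' : |((v 1 : ℤ) : ℝ)| ≤ H := by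
    rw [abs_le]; exact ⟨by exact_mod_cast h1.1, by exact_mod_cast h1.2⟩
  unfold lf
  push_cast
  have hX0 : (0 : ℝ) ≤ X := Nat.cast_nonneg _
  have hH0 : (0 : ℝ) ≤ H := Nat.cast_nonneg _
  calc |(v 0 : ℝ) * a + v 1 * b + c| ≤ |(v 0 : ℝ) * a| + |(v 1 : ℝ) * b| + |(c : ℝ)| :=
        (abs_add_le _ _).trans (add_le_add_left (abs_add_le _ _) _)
    _ ≤ H * X + H * X + max C 0 * H * X := by
        rw [abs_mul, abs_mul]
        have h2 : C * H * X ≤ max C 0 * H * X := by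
          gcongr
          exact le_max_left _ _
        gcongr
        exact hc.trans h2
    _ = _ := by ring

theorem one_step2 (B0 A k0 : ℕ) (C δ : ℝ) (hδ : 0 < δ) (hδ1 : δ ≤ 1) : ∃ H0 : ℕ, 3 ≤ H0 ∧ ∀ H : ℕ, H0 ≤ H →
    ∀ W X : ℕ, 1 ≤ W → (W : ℝ) ≤ Real.log H → 1 ≤ X → (X : ℝ) ≤ Real.log H ^ B0 → ∀ a b c a' b' c' : ℤ,
    |(a : ℝ)| ≤ X → |(b : ℝ)| ≤ X → |(a' : ℝ)| ≤ X → |(b' : ℝ)| ≤ X → |(c : ℝ)| ≤ C * H * X → a * b' - a' * b ≠ 0 →
    ∀ Φ : ℤ → ℝ, (∀ u, 0 ≤ Φ u) → (∀ u, Φ u ≤ Real.log H ^ k0) →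
    |∑ v ∈ Bx 1 H, om (Real.log H) (lf a b c v) * Φ (lf a' b' c' v) -
      ∑ v ∈ Bx 1 H, MM (W * (a * b' - a' * b).natAbs) (lf a b c v) * Φ (lf a' b' c' v)| ≤
      δ * ∑ v ∈ Bx 1 H, MM (W * (a * b' - a' * b).natAbs) (lf a b c v) * Φ (lf a' b' c' v) +
      (Bx 1 H).card / Real.log H ^ A := by
  set B1 : ℕ := 2 * B0 + k0 + A + 6 with hB1
  obtain ⟨H1, hav⟩ := avgp (A + k0 + 1) B1 δ hδ hδ1
  have hlog : Tendsto (fun n : ℕ => Real.log n) atTop atTop := Real.tendsto_log_atTop.comp tendsto_natCast_atTop_atTop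
  have e5 := hlog.eventually_ge_atTop (max 16 (2 + max C 0))
  have e6 := (tendsto_natCast_atTop_atTop (R := ℝ)).eventually
    ((Real.isLittleO_pow_log_id_atTop (n := B1)).def (show (0 : ℝ) < 1 by norm_num))
  obtain ⟨H0, h0⟩ := ((e5.and (eventually_ge_atTop (max H1 3))).and e6).exists_forall_of_atTop
  refine ⟨max H0 3, le_max_right _ _, fun H hH W X hW hWH hX1 hXH a b c a' b' c' ha hb ha' hb' hc hD Φ hΦ0 hΦ1 => ?_⟩
  obtain ⟨⟨h2, h3⟩, h1⟩ := h0 H ((le_max_left _ _).trans hH)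
  have hav' := hav H ((le_max_left _ _).trans h3)
  have hH3 : 3 ≤ H := (le_max_right _ _).trans h3
  set L := Real.log H with hL
  have hL16 : 16 ≤ L := (le_max_left _ _).trans h2
  have hLC : 2 + max C 0 ≤ L := (le_max_right _ _).trans h2
  have hL0 : 0 < L := by linarith
  have hL1 : 1 ≤ L := by linarith
  have hHr : (0 : ℝ) < H := by exact_mod_cast (by omega : 0 < H)
  have hXr : (1 : ℝ) ≤ X := by exact_mod_cast hX1
  have hLH : L ^ B1 ≤ H := by
    simp only [id, Real.norm_eq_abs] at h1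
    rw [abs_of_nonneg (by positivity), abs_of_nonneg hHr.le] at h1
    linarith
  -- the modulus
  set D : ℤ := a * b' - a' * b with hDdef
  set q : ℕ := W * D.natAbs with hq
  have hD1 : 1 ≤ D.natAbs := Int.natAbs_pos.2 hD
  have hq1 : 1 ≤ q := Nat.mul_pos hW hD1
  have hDr : ((D.natAbs : ℕ) : ℝ) ≤ 2 * (X : ℝ) ^ 2 := by
    have e1 : ((D.natAbs : ℕ) : ℝ) = |(D : ℝ)| := by
      rw [Nat.cast_natAbs, Int.cast_abs]
    rw [e1, hDdef]
    push_cast
    calc |(a : ℝ) * b' - a' * b| ≤ |(a : ℝ) * b'| + |(a' : ℝ) * b| := abs_sub _ _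
      _ ≤ X * X + X * X := by rw [abs_mul, abs_mul]; gcongr
      _ = _ := by ring
  have hqle : (q : ℝ) ≤ L ^ B1 := by
    calc (q : ℝ) = W * ((D.natAbs : ℕ) : ℝ) := by rw [hq]; push_cast; ring
      _ ≤ L * (2 * (L ^ B0) ^ 2) := by
          have : (X : ℝ) ^ 2 ≤ (L ^ B0) ^ 2 := by gcongr
          gcongr
          linarith
      _ ≤ L * (L * (L ^ B0) ^ 2) := by
          gcongr
          linarith
      _ = L ^ (2 * B0 + 2) := by rw [← pow_mul]; ring
      _ ≤ L ^ B1 := pow_le_pow_right₀ hL1 (by omega)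
  -- the number of the shifts
  set V : ℕ := ⌈(H : ℝ) / L ^ B1⌉₊ with hV
  have hV1 : (H : ℝ) ≤ V * L ^ B1 := by
    have := Nat.le_ceil ((H : ℝ) / L ^ B1)
    rw [div_le_iff₀ (by positivity)] at this
    exact this
  have hV2 : V ≤ H := by
    rw [hV, Nat.ceil_le]
    exact div_le_self hHr.le (one_le_pow₀ hL1)
  have hV0 : (0 : ℝ) < V := by
    by_contra hcon
    push Not at hcon
    have : (V : ℝ) * L ^ B1 ≤ 0 := mul_nonpos_of_nonpos_of_nonneg hcon (by positivity)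
    linarith
  have hV3 : (V : ℝ) ≤ H / L ^ B1 + 1 := (Nat.ceil_lt_add_one (by positivity)).le
  obtain ⟨s, hs, hs2⟩ : ∃ s : ℤ, (s = 1 ∨ s = -1) ∧ s * D = (D.natAbs : ℤ) := by
    rcases le_total 0 D with h | h
    · exact ⟨1, Or.inl rfl, by rw [one_mul, Int.natCast_natAbs, abs_of_nonneg h]⟩
    · exact ⟨-1, Or.inr rfl, by rw [Int.natCast_natAbs, abs_of_nonpos h]; ring⟩
  have hsabs : |(s : ℝ)| = 1 := by rcases hs with h | h <;> rw [h] <;> simp
  set r : Fin (1 + 1) → ℤ := ![b', -a'] with hr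
  have hval : ∀ (v : Fin (1 + 1) → ℤ) (k : ℕ), lf a b c (v + ((k : ℤ) * s * W) • r) = lf a b c v + k * q := by
    intro v k
    rw [hr, lf_shift, ← hDdef]
    have h5 : (q : ℤ) = W * (s * D) := by
      rw [hs2, hq]; push_cast; ring
    rw [h5]; ring
  have hval' : ∀ (v : Fin (1 + 1) → ℤ) (k : ℕ), lf a' b' c' (v + ((k : ℤ) * s * W) • r) = lf a' b' c' v := by
    intro v k
    rw [hr, lf_shift]
    ring
  -- the sum
  set S : ℝ := ∑ v ∈ Bx 1 H, om L (lf a b c v) * Φ (lf a' b' c' v) with hS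
  set T : ℝ := ∑ v ∈ Bx 1 H, MM q (lf a b c v) * Φ (lf a' b' c' v) with hT
  set K1 : ℝ := L ^ k0 with hK1
  have hK1p : 0 < K1 := by positivity
  set N : ℝ := ((Bx 1 H).card : ℝ) with hN
  have hshift : ∀ k ∈ Icc 1 V, |S - ∑ v ∈ Bx 1 H, om L (lf a b c v + k * q) * Φ (lf a' b' c' v)| ≤
      (L * K1) * (2 * (((1 : ℕ) + 1) * (V * W * (X : ℝ)) * (2 * H + 1) ^ 1)) := by
    intro k hk
    rw [mem_Icc] at hk
    have hbx := box_shift 1 H (fun v => (((om L (lf a b c v) * Φ (lf a' b' c' v)) / (L * K1) : ℝ) : ℂ)) (by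
      intro v
      rw [Complex.norm_real, Real.norm_of_nonneg (div_nonneg (mul_nonneg (om_nonneg hL0.le _) (hΦ0 _)) (by positivity)),
        div_le_one (by positivity)]
      exact mul_le_mul (om_le hL0.le _) (hΦ1 _) (hΦ0 _) hL0.le) (((k : ℤ) * s * W) • r) (V * W * (X : ℝ)) (by
      intro i
      rw [Pi.smul_apply, smul_eq_mul]
      push_cast
      rw [abs_mul, abs_mul, abs_mul, hsabs, mul_one, abs_of_nonneg (by positivity : (0:ℝ) ≤ k),
        abs_of_nonneg (by positivity : (0:ℝ) ≤ W)]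
      have h6 : (k : ℝ) ≤ V := by exact_mod_cast hk.2
      have h7 : |((r i : ℤ) : ℝ)| ≤ X := by
        rw [hr]
        fin_cases i
        · simpa using hb'
        · simpa using ha'
      gcongr)
    have e2 : ∑ v ∈ Bx 1 H, (((om L (lf a b c v) * Φ (lf a' b' c' v)) / (L * K1) : ℝ) : ℂ) -
        ∑ v ∈ Bx 1 H, (((om L (lf a b c (v + ((k : ℤ) * s * W) • r)) *
          Φ (lf a' b' c' (v + ((k : ℤ) * s * W) • r))) / (L * K1) : ℝ) : ℂ) =
        (((S - ∑ v ∈ Bx 1 H, om L (lf a b c v + k * q) * Φ (lf a' b' c' v)) / (L * K1) : ℝ) : ℂ) := by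
      rw [← Complex.ofReal_sum, ← Complex.ofReal_sum, ← Complex.ofReal_sub, ← sum_div, ← sum_div, ← sub_div]
      congr 3
      apply sum_congr rfl
      intro v _
      rw [hval, hval']
    rw [e2, Complex.norm_real, Real.norm_eq_abs, abs_div, abs_of_pos (by positivity : 0 < L * K1),
      div_le_iff₀ (by positivity)] at hbx
    rw [mul_comm (L * K1)]
    exact hbx
  -- the average over the shifts
  have hinner : ∀ v ∈ Bx 1 H, |(∑ k ∈ Icc 1 V, om L (lf a b c v + k * q)) * Φ (lf a' b' c' v) -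
      V * (MM q (lf a b c v) * Φ (lf a' b' c' v))| ≤
      δ * (V * (MM q (lf a b c v) * Φ (lf a' b' c' v))) + V / L ^ (A + 1) := by
    intro v hv
    have h7 : |((lf a b c v : ℤ) : ℝ)| ≤ H * L ^ B1 := by
      calc |((lf a b c v : ℤ) : ℝ)| ≤ (2 + max C 0) * H * X := lf_bound H X C a b c ha hb hc v hv
        _ ≤ L * H * L ^ B0 := by gcongr
        _ = H * L ^ (B0 + 1) := by ring
        _ ≤ H * L ^ B1 := by
            apply mul_le_mul_of_nonneg_left _ hHr.le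
            exact pow_le_pow_right₀ hL1 (by omega)
    have h8 := hav' q V hq1 hqle hV1 hV2 (lf a b c v) h7
    set φ := Φ (lf a' b' c' v) with hφ
    have hφ0 : 0 ≤ φ := hΦ0 _
    have hφ1 : φ ≤ L ^ k0 := hΦ1 _
    have e1 : (∑ k ∈ Icc 1 V, om L (lf a b c v + k * q)) * φ - V * (MM q (lf a b c v) * φ) =
        (∑ k ∈ Icc 1 V, om L (lf a b c v + k * q) - V * MM q (lf a b c v)) * φ := by ring
    rw [e1, abs_mul, abs_of_nonneg hφ0]
    calc _ ≤ (δ * (V * MM q (lf a b c v)) + V / L ^ (A + k0 + 1)) * φ := mul_le_mul_of_nonneg_right h8 hφ0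
      _ = δ * (V * (MM q (lf a b c v) * φ)) + V / L ^ (A + k0 + 1) * φ := by ring
      _ ≤ δ * (V * (MM q (lf a b c v) * φ)) + V / L ^ (A + k0 + 1) * L ^ k0 := by gcongr
      _ = _ := by
          congr 1
          have : L ^ (A + k0 + 1) = L ^ (A + 1) * L ^ k0 := by rw [← pow_add]; congr 1; omega
          rw [this]; field_simp
  have hswap : ∑ k ∈ Icc 1 V, ∑ v ∈ Bx 1 H, om L (lf a b c v + k * q) * Φ (lf a' b' c' v) =
      ∑ v ∈ Bx 1 H, (∑ k ∈ Icc 1 V, om L (lf a b c v + k * q)) * Φ (lf a' b' c' v) := by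
    rw [sum_comm]
    apply sum_congr rfl
    intro v _
    rw [sum_mul]
  set E : ℝ := (L * K1) * (2 * (((1 : ℕ) + 1) * (V * W * (X : ℝ)) * (2 * H + 1) ^ 1)) with hE
  have f1 : |V * S - ∑ k ∈ Icc 1 V, ∑ v ∈ Bx 1 H, om L (lf a b c v + k * q) * Φ (lf a' b' c' v)| ≤ V * E := by
    have e1 : V * S = ∑ k ∈ Icc 1 V, S := by rw [sum_const, Nat.card_Icc, Nat.add_sub_cancel, nsmul_eq_mul]
    rw [e1, ← sum_sub_distrib]
    refine (abs_sum_le_sum_abs _ _).trans ((sum_le_sum hshift).trans (le_of_eq ?_))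
    rw [sum_const, Nat.card_Icc, Nat.add_sub_cancel, nsmul_eq_mul]
  have f2 : |∑ k ∈ Icc 1 V, ∑ v ∈ Bx 1 H, om L (lf a b c v + k * q) * Φ (lf a' b' c' v) - V * T| ≤
      δ * (V * T) + N * (V / L ^ (A + 1)) := by
    rw [hswap, hT, mul_sum, ← sum_sub_distrib]
    refine (abs_sum_le_sum_abs _ _).trans ((sum_le_sum hinner).trans (le_of_eq ?_))
    rw [sum_add_distrib, ← mul_sum, sum_const, nsmul_eq_mul]
  have f3 : |V * S - V * T| ≤ V * (δ * T + (N / L ^ (A + 1) + E)) := by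
    calc |V * S - V * T| ≤ V * E + (δ * (V * T) + N * (V / L ^ (A + 1))) := (abs_sub_le _ _ _).trans (add_le_add f1 f2)
      _ = _ := by ring
  have f4 : |S - T| ≤ δ * T + (N / L ^ (A + 1) + E) := by
    rw [← mul_sub, abs_mul, abs_of_pos hV0] at f3
    exact le_of_mul_le_mul_left f3 hV0
  -- the boundary
  have hEN : E ≤ N / L ^ (A + 1) := by
    rw [hE, hN, card_Bx, le_div_iff₀ (by positivity), pow_succ (2 * (H : ℝ) + 1) 1]
    have h6 : (V : ℝ) ≤ 2 * (H / L ^ B1) := by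
      have h7 : (1 : ℝ) ≤ H / L ^ B1 := by
        rw [le_div_iff₀ (by positivity), one_mul]; exact hLH
      linarith
    have h10 : L * K1 * (2 * (((1 : ℕ) + 1) * (V * W * (X : ℝ)))) * L ^ (A + 1) ≤ 2 * H + 1 := by
      calc L * K1 * (2 * (((1 : ℕ) + 1) * (V * W * (X : ℝ)))) * L ^ (A + 1)
          ≤ L * L ^ k0 * (2 * (((1 : ℕ) + 1) * (2 * (H / L ^ B1) * L * L ^ B0))) * L ^ (A + 1) := by
            gcongr
        _ = 8 * L ^ (B0 + k0 + A + 3) * (H / L ^ B1) := by push_cast; ring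
        _ ≤ L * L ^ (B0 + k0 + A + 3) * (H / L ^ B1) := by
            gcongr
            linarith
        _ = L ^ (B0 + k0 + A + 4) * (H / L ^ B1) := by ring
        _ ≤ L ^ B1 * (H / L ^ B1) := by
            apply mul_le_mul_of_nonneg_right _ (by positivity)
            exact pow_le_pow_right₀ hL1 (by omega)
        _ = H := by field_simp
        _ ≤ 2 * H + 1 := by linarith
    calc L * K1 * (2 * (((1 : ℕ) + 1) * (V * W * (X : ℝ)) * (2 * H + 1) ^ 1)) * L ^ (A + 1)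
        = (L * K1 * (2 * (((1 : ℕ) + 1) * (V * W * (X : ℝ)))) * L ^ (A + 1)) * (2 * (H : ℝ) + 1) ^ 1 := by ring
      _ ≤ (2 * (H : ℝ) + 1) * (2 * (H : ℝ) + 1) ^ 1 := by gcongr
      _ = _ := by ring
  refine f4.trans ?_
  have h11 : N / L ^ (A + 1) + E ≤ N / L ^ A := by
    have h12 : N / L ^ (A + 1) ≤ N / L ^ A / 4 := by
      rw [pow_succ, ← div_div]
      apply div_le_div_of_nonneg_left (by positivity) (by norm_num) (by linarith)
    have h13 : 0 ≤ N / L ^ A := by positivity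
    linarith
  linarith

end Pool.Agent.Helper24K9.PL
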