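import Pool.Agent.Helper24K9.PL.Comb

set_option autoImplicit false

/-! The second moment over the members of a two-parameter family of quadratics. -/

namespace Pool.Agent.Helper24K9.PL

open Finset Filter Pool.Agent.Helper82K9.PR

lemma dd_eq (g g' : Fin 3 → ℤ) (n m : ℕ) :
    dd g g' n m = ((n : ℤ) - m) * ((cA g g' * n + cB g g') * m + (cB g g' * n + cC g g')) := by
  unfold dd ev cA cB cC
  ring

lemma dd_symm (g g' : Fin 3 → ℤ) (n m : ℕ) : (dd g g' m n).natAbs = (dd g g' n m).natAbs := by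
  rw [← Int.natAbs_neg]
  congr 1
  unfold dd
  ring

lemma exists_R (g g' : Fin 3 → ℤ) (hg : Nz g g') : ∃ R : ℤ, R ≠ 0 ∧
    ∀ n q : ℤ, q ∣ cA g g' * n + cB g g' → q ∣ cB g g' * n + cC g g' → q ∣ R := by
  rcases hg with h | ⟨h1, h2, h3⟩
  · refine ⟨cB g g' ^ 2 - cA g g' * cC g g', sub_ne_zero.2 h, fun n q ha hb => ?_⟩
    have h5 := dvd_sub (Dvd.dvd.mul_left ha (cB g g')) (Dvd.dvd.mul_left hb (cA g g'))
    have e : cB g g' * (cA g g' * n + cB g g') - cA g g' * (cB g g' * n + cC g g') =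
        cB g g' ^ 2 - cA g g' * cC g g' := by ring
    rw [e] at h5
    exact h5
  · refine ⟨cC g g', h3, fun n q ha hb => ?_⟩
    rw [h2, zero_mul, zero_add] at hb
    exact hb

lemma no_common (g g' : Fin 3 → ℤ) (hg : Nz g g') : ∃ z0 : ℕ, ∀ p : ℕ, p.Prime → z0 < p → ∀ n : ℕ,
    ¬ ((p : ℤ) ∣ ev g n ∧ (p : ℤ) ∣ ev g' n) := by
  obtain ⟨R, hR0, hR⟩ := exists_R g g' hg
  refine ⟨max 2 R.natAbs, fun p hp hzp n hn => ?_⟩
  have hp2 : 2 < p := lt_of_le_of_lt (le_max_left _ _) hzp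
  have hpR : R.natAbs < p := lt_of_le_of_lt (le_max_right _ _) hzp
  have hdd : ∀ m : ℕ, (p : ℤ) ∣ dd g g' n m := by
    intro m
    unfold dd
    exact dvd_sub (Dvd.dvd.mul_right hn.1 _) (Dvd.dvd.mul_left hn.2 _)
  have h1 := hdd (n + 1)
  have h2 := hdd (n + 2)
  rw [dd_eq] at h1 h2
  push_cast at h1 h2
  set a := cA g g' * n + cB g g' with ha
  set b := cB g g' * n + cC g g' with hb
  have h3 : (p : ℤ) ∣ a * (n + 1) + b := by
    have e : ((n : ℤ) - (n + 1)) * (a * (n + 1) + b) = -(a * (n + 1) + b) := by ring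
    rw [e] at h1
    exact (dvd_neg).1 h1
  have h4 : (p : ℤ) ∣ a * (n + 2) + b := by
    have e : ((n : ℤ) - (n + 2)) * (a * (n + 2) + b) = -(2 * (a * (n + 2) + b)) := by ring
    rw [e] at h2
    have h5 := (dvd_neg).1 h2
    rcases (Nat.prime_iff_prime_int.1 hp).dvd_or_dvd h5 with h6 | h6
    · exfalso
      have := Int.le_of_dvd (by norm_num) h6
      omega
    · exact h6
  have h5 : (p : ℤ) ∣ a := by
    have := dvd_sub h4 h3
    have e : (a * ((n : ℤ) + 2) + b) - (a * (n + 1) + b) = a := by ring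
    rw [e] at this
    exact this
  have h6 : (p : ℤ) ∣ b := by
    have := dvd_sub h3 (Dvd.dvd.mul_right h5 ((n : ℤ) + 1))
    have e : (a * ((n : ℤ) + 1) + b) - a * (n + 1) = b := by ring
    rw [e] at this
    exact this
  have h7 := hR n p h5 h6
  have h8 := Nat.le_of_dvd (Int.natAbs_pos.2 hR0) (Int.natCast_dvd.1 h7)
  omega

lemma bad_le (g g' : Fin 3 → ℤ) (hg : Nz g g') (x n : ℕ) :
    ((Icc 1 x).filter (fun m => dd g g' n m = 0)).card ≤ 2 := by
  classical
  obtain ⟨R, hR0, hR⟩ := exists_R g g' hg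
  set a := cA g g' * n + cB g g' with ha
  set b := cB g g' * n + cC g g' with hb
  have h1 : (Icc 1 x).filter (fun m => dd g g' n m = 0) ⊆ {n} ∪ (Icc 1 x).filter (fun m : ℕ => a * m + b = 0) := by
    intro m hm
    rw [mem_filter, dd_eq, mul_eq_zero] at hm
    rw [mem_union, mem_singleton, mem_filter]
    rcases hm.2 with h | h
    · left; omega
    · right; exact ⟨hm.1, h⟩
  have h2 : ((Icc 1 x).filter (fun m : ℕ => a * m + b = 0)).card ≤ 1 := by
    apply card_le_one.2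
    intro m1 hm1 m2 hm2
    rw [mem_filter] at hm1 hm2
    by_contra hne
    have h3 : a * ((m1 : ℤ) - m2) = 0 := by linarith [hm1.2, hm2.2]
    rcases mul_eq_zero.1 h3 with h | h
    · have h4 := hm1.2
      rw [h, zero_mul, zero_add] at h4
      have h5 := hR n 0 (by rw [← ha, h]) (by rw [← hb, h4])
      exact hR0 (zero_dvd_iff.1 h5)
    · omega
  refine (card_le_card h1).trans ((card_union_le _ _).trans ?_)
  rw [card_singleton]
  omega

lemma ev_bound (g : Fin 3 → ℤ) (K : ℕ) (hK : ∀ i, |g i| ≤ K) (x n : ℕ) (hn : n ∈ Icc 1 x) :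
    |((ev g n : ℤ) : ℝ)| ≤ ((3 * K * x ^ 2 : ℕ) : ℝ) := by
  rw [mem_Icc] at hn
  unfold ev
  push_cast
  have h1 : ∀ i, |((g i : ℤ) : ℝ)| ≤ K := fun i => by rw [← Int.cast_abs]; exact_mod_cast hK i
  have hn1 : (1 : ℝ) ≤ n := by exact_mod_cast hn.1
  have hnx : (n : ℝ) ≤ x := by exact_mod_cast hn.2
  have hx1 : (1 : ℝ) ≤ x := hn1.trans hnx
  have hxx : (x : ℝ) ≤ x ^ 2 := by nlinarith
  have hx2 : (1 : ℝ) ≤ (x : ℝ) ^ 2 := by nlinarith
  have hnn : (n : ℝ) ^ 2 ≤ x ^ 2 := by gcongr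
  have hK0 : (0 : ℝ) ≤ K := Nat.cast_nonneg _
  calc |(g 0 : ℝ) + g 1 * n + g 2 * n ^ 2| ≤ |(g 0 : ℝ)| + |(g 1 : ℝ) * n| + |(g 2 : ℝ) * n ^ 2| :=
        (abs_add_le _ _).trans (add_le_add_left (abs_add_le _ _) _)
    _ ≤ K * 1 + K * x + K * x ^ 2 := by
        rw [abs_mul, abs_mul, abs_of_nonneg (by linarith : (0 : ℝ) ≤ n), abs_of_nonneg (by positivity : (0 : ℝ) ≤ (n : ℝ) ^ 2)]
        have := h1 0
        have := h1 1
        have := h1 2
        gcongr
        · linarith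
    _ ≤ K * x ^ 2 + K * x ^ 2 + K * x ^ 2 := by gcongr
    _ = _ := by ring

theorem sec (hcomb : S_COMB) (hmom : S_MOM) : S_SEC := by
  intro g g' hg B0 C ε hε
  obtain ⟨Kg, hKg, hKg'⟩ : ∃ K : ℕ, (∀ i, |g i| ≤ K) ∧ ∀ i, |g' i| ≤ K := by
    refine ⟨∑ i, ((g i).natAbs + (g' i).natAbs), fun i => ?_, fun i => ?_⟩
    · have h1 : (g i).natAbs ≤ ∑ i, ((g i).natAbs + (g' i).natAbs) :=
        (Nat.le_add_right _ _).trans (single_le_sum (f := fun i => (g i).natAbs + (g' i).natAbs) (fun _ _ => Nat.zero_le _) (mem_univ i))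
      rw [← Int.natCast_natAbs]
      exact_mod_cast h1
    · have h1 : (g' i).natAbs ≤ ∑ i, ((g i).natAbs + (g' i).natAbs) :=
        (Nat.le_add_left _ _).trans (single_le_sum (f := fun i => (g i).natAbs + (g' i).natAbs) (fun _ _ => Nat.zero_le _) (mem_univ i))
      rw [← Int.natCast_natAbs]
      exact_mod_cast h1
  obtain ⟨z1, hz1⟩ := no_common g g' hg
  obtain ⟨K, hK0, z2, hz2, hmomz⟩ := hmom g g' hg 4 (by norm_num)
  obtain ⟨z3, hz31, hz3⟩ := growth 3 K (ε / 144) hK0 (by positivity)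
  refine ⟨max z3 (max z1 z2), hz31.trans (le_max_left _ _), fun z hz => ?_⟩
  have hzz3 : z3 ≤ z := (le_max_left _ _).trans hz
  have hzz1 : z1 ≤ z := ((le_max_left _ _).trans (le_max_right _ _)).trans hz
  have hzz2 : z2 ≤ z := ((le_max_right _ _).trans (le_max_right _ _)).trans hz
  have hzpos : (1 : ℝ) ≤ z := by exact_mod_cast hz31.trans hzz3
  obtain ⟨x0, hx0m⟩ := hmomz z hzz2
  have hgr := hz3 z hzz3
  set ζ := Real.exp (K / z) - 1 with hζ
  have hζ0 : 0 ≤ ζ := by
    have h4 : 0 ≤ K / (z : ℝ) := by positivity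
    have := Real.add_one_le_exp (K / (z : ℝ))
    rw [hζ]; linarith
  have hCz := Cz_ge z
  set P := Cz z ^ 2 with hP
  have hP1 : 1 ≤ P := one_le_pow₀ hCz
  set η := min 1 (ε / (12 * (Cz z * (P + 1)))) with hη
  have hη0 : 0 < η := lt_min one_pos (by positivity)
  have hηε : Cz z * (3 * (P + 1) * η) ≤ ε / 4 := by
    have h1 : η ≤ ε / (12 * (Cz z * (P + 1))) := min_le_right _ _
    rw [le_div_iff₀ (by positivity)] at h1
    linarith
  obtain ⟨H1, hH1, hc⟩ := hcomb (2 * B0 + 1) (max C 0) η hη0 z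
  set K3 := 2 * (2 * Cz z * (4 * ζ + 1) + 1) with hK3
  have hK30 : 0 ≤ K3 := by positivity
  set K4 := K3 + P with hK4
  have hK40 : 0 < K4 := by positivity
  obtain ⟨A1, hA1⟩ := exists_nat_ge (4 * Cz z * K4 / ε)
  have hlog : Tendsto (fun n : ℕ => Real.log n) atTop atTop := Real.tendsto_log_atTop.comp tendsto_natCast_atTop_atTop
  obtain ⟨H3, h3⟩ := eventually_atTop.1 (hlog.eventually_ge_atTop (max 1 (3 * (Kg : ℝ) + 1)))
  refine ⟨max (max H1 H3) (max (max A1 x0) 4), by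
    have : 4 ≤ max (max H1 H3) (max (max A1 x0) 4) := (le_max_right _ _).trans (le_max_right _ _)
    omega, fun H hH x hAx hxB G hG w hw => ?_⟩
  have hHH1 : H1 ≤ H := ((le_max_left _ _).trans (le_max_left _ _)).trans hH
  have hLh := h3 H (((le_max_right _ _).trans (le_max_left _ _)).trans hH)
  set L := Real.log H with hL
  have hL1 : 1 ≤ L := (le_max_left _ _).trans hLh
  have hLK : 3 * (Kg : ℝ) + 1 ≤ L := (le_max_right _ _).trans hLh
  have hL0 : 0 < L := by linarith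
  have hAmx : ((max (max H1 H3) (max (max A1 x0) 4) : ℕ) : ℝ) ≤ x :=
    le_trans (le_mul_of_one_le_right (Nat.cast_nonneg _) hL1) hAx
  have hAmxn : max (max H1 H3) (max (max A1 x0) 4) ≤ x := by exact_mod_cast hAmx
  have hxx0 : x0 ≤ x := ((le_max_right _ _).trans ((le_max_left _ _).trans (le_max_right _ _))).trans hAmxn
  have hx4 : 4 ≤ x := ((le_max_right _ _).trans (le_max_right _ _)).trans hAmxn
  have hx0r : (0 : ℝ) < x := by exact_mod_cast (by omega : 0 < x)
  have hxA : 4 * Cz z * K4 / ε * L ≤ x := by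
    refine le_trans ?_ hAx
    apply mul_le_mul_of_nonneg_right (hA1.trans _) hL0.le
    exact_mod_cast ((le_max_left A1 x0).trans (le_max_left _ 4)).trans (le_max_right _ _)
  -- the range of the coefficients
  set X := (3 * Kg + 1) * x ^ 2 with hX
  have hX1 : 1 ≤ X := by
    rw [hX]
    have : 1 ≤ x ^ 2 := Nat.one_le_pow _ _ (by omega)
    nlinarith
  have hXL : (X : ℝ) ≤ L ^ (2 * B0 + 1) := by
    rw [hX]
    push_cast
    calc (3 * (Kg : ℝ) + 1) * x ^ 2 ≤ L * (L ^ B0) ^ 2 := by gcongr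
      _ = L ^ (2 * B0 + 1) := by rw [← pow_mul]; ring
  have hevX : ∀ n ∈ Icc 1 x, |((ev g n : ℤ) : ℝ)| ≤ X ∧ |((ev g' n : ℤ) : ℝ)| ≤ X := by
    intro n hn
    have h5 : ((3 * Kg * x ^ 2 : ℕ) : ℝ) ≤ X := by
      rw [hX]
      exact_mod_cast Nat.mul_le_mul_right _ (by omega)
    exact ⟨(ev_bound g Kg hKg x n hn).trans h5, (ev_bound g' Kg hKg' x n hn).trans h5⟩
  have hGX : ∀ n ∈ Icc 1 x, |((G n : ℤ) : ℝ)| ≤ max C 0 * H * X := by
    intro n hn
    refine (hG n hn).trans ?_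
    rw [mem_Icc] at hn
    have h5 : (n : ℝ) ^ 2 ≤ X := by
      rw [hX]
      have h6 : n ^ 2 ≤ x ^ 2 := Nat.pow_le_pow_left hn.2 2
      have h7 : x ^ 2 ≤ (3 * Kg + 1) * x ^ 2 := Nat.le_mul_of_pos_left _ (by omega)
      exact_mod_cast h6.trans h7
    have h6 : (0 : ℝ) ≤ H := Nat.cast_nonneg _
    have h7 : C * H * (n : ℝ) ^ 2 ≤ max C 0 * H * (n : ℝ) ^ 2 := by
      gcongr
      exact le_max_left _ _
    refine h7.trans ?_
    have h8 : 0 ≤ max C 0 := le_max_right _ _
    gcongr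
  set N : ℝ := ((Bx 1 H).card : ℝ) with hN
  have hN0 : 0 ≤ N := Nat.cast_nonneg _
  set F : ℕ → (Fin (1 + 1) → ℤ) → ℤ := fun n v => lf (ev g n) (ev g' n) (G n) v with hF
  have hpair : ∀ n ∈ Icc 1 x, ∀ m ∈ Icc 1 x, dd g g' n m ≠ 0 → _ := fun n hn m hm hd =>
    hc H hHH1 X hX1 hXL (ev g n) (ev g' n) (G n) (ev g m) (ev g' m) (G m) (hevX n hn).1 (hevX n hn).2 (hevX m hm).1
      (hevX m hm).2 (hGX n hn) (hGX m hm) hd (fun p hp hzp => hz1 p hp (lt_of_le_of_lt hzz1 hzp) n)
      (fun p hp hzp => hz1 p hp (lt_of_le_of_lt hzz1 hzp) m)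
  set sd : ℕ → ℕ → ℝ := fun n m => sg z (dd g g' n m).natAbs with hsd
  have hsd0 : ∀ n m, 0 ≤ sd n m := fun n m => sg_nonneg _ _
  have hmomx := hx0m x hxx0
  set Δ : (Fin (1 + 1) → ℤ) → ℕ → ℝ := fun v n => om L (F n v) - MM (primorial z) (F n v) with hΔ
  -- the squares
  have hom : ∀ n ∈ Icc 1 x, ∑ v ∈ Bx 1 H, om L (F n v) ≤ N * K3 := by
    intro n hn
    set gd := (Icc 1 x).filter (fun m => dd g g' n m ≠ 0) with hgd
    have hcard : (x : ℝ) / 2 ≤ (gd.card : ℝ) := by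
      have h5 := card_filter_add_card_filter_not (s := Icc 1 x) (fun m => dd g g' n m = 0)
      have h6 := bad_le g g' hg x n
      rw [Nat.card_Icc] at h5
      have h7 : gd = (Icc 1 x).filter (fun m => ¬ dd g g' n m = 0) := rfl
      rw [← h7] at h5
      have h8 : x ≤ gd.card + 2 := by omega
      have h9 : (x : ℝ) ≤ gd.card + 2 := by exact_mod_cast h8
      have h10 : (4 : ℝ) ≤ x := by exact_mod_cast hx4
      linarith
    set Y := ∑ v ∈ Bx 1 H, om L (F n v) with hY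
    have hY0 : 0 ≤ Y := sum_nonneg fun v _ => om_nonneg hL0.le _
    have h5 : (gd.card : ℝ) * Y ≤ N * (2 * Cz z * (4 * x * ζ + x) + x) := by
      calc (gd.card : ℝ) * Y = ∑ m ∈ gd, Y := by rw [sum_const, nsmul_eq_mul]
        _ ≤ ∑ m ∈ gd, N * (2 * Cz z * Real.exp (4 * sd n m) + 1) := by
            apply sum_le_sum
            intro m hm
            rw [hgd, mem_filter] at hm
            refine ((hpair n hn m hm.1 hm.2).2.2).trans ?_
            have h6 : Real.exp (2 * sg z (ev g n * ev g' m - ev g m * ev g' n).natAbs) ≤ Real.exp (4 * sd n m) := by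
              apply Real.exp_le_exp.2
              have := hsd0 n m
              have e : sg z (ev g n * ev g' m - ev g m * ev g' n).natAbs = sd n m := rfl
              rw [e]
              linarith
            gcongr
        _ ≤ ∑ m ∈ Icc 1 x, N * (2 * Cz z * Real.exp (4 * sd n m) + 1) := by
            apply sum_le_sum_of_subset_of_nonneg (filter_subset _ _)
            intro m _ _
            have := Real.exp_pos (4 * sd n m)
            positivity
        _ = N * (2 * Cz z * (∑ m ∈ Icc 1 x, (Real.exp (4 * sd n m) - 1) + x) + x) := by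
            rw [← mul_sum, sum_add_distrib, ← mul_sum, sum_sub_distrib, sum_const, Nat.card_Icc, Nat.add_sub_cancel,
              nsmul_eq_mul]
            ring
        _ ≤ _ := by
            have h6 := hmomx n hn
            gcongr
    have h6 : (x : ℝ) / 2 * Y ≤ N * (2 * Cz z * (4 * x * ζ + x) + x) :=
      (mul_le_mul_of_nonneg_right hcard hY0).trans h5
    have h7 : (x : ℝ) / 2 * Y ≤ (x : ℝ) / 2 * (N * K3) := by
      refine h6.trans (le_of_eq ?_)
      rw [hK3]; ring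
    exact le_of_mul_le_mul_left h7 (by positivity)
  have hQ : ∀ n ∈ Icc 1 x, ∑ v ∈ Bx 1 H, Δ v n ^ 2 ≤ N * (L * K4) := by
    intro n hn
    calc ∑ v ∈ Bx 1 H, Δ v n ^ 2 ≤ ∑ v ∈ Bx 1 H, (L * om L (F n v) + P) := by
          apply sum_le_sum
          intro v _
          have h5 := om_sq L (F n v)
          have h6 := om_nonneg hL0.le (F n v)
          have h7 := MM_nonneg (primorial z) (F n v)
          have h8 := MM_le_Cz z (F n v)
          have h9 : MM (primorial z) (F n v) ^ 2 ≤ P := pow_le_pow_left₀ h7 h8 2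
          have h10 := mul_nonneg h6 h7
          have e : Δ v n ^ 2 = om L (F n v) ^ 2 - 2 * (om L (F n v) * MM (primorial z) (F n v)) +
              MM (primorial z) (F n v) ^ 2 := by rw [hΔ]; ring
          rw [e, h5]
          linarith
      _ = L * ∑ v ∈ Bx 1 H, om L (F n v) + N * P := by
          rw [sum_add_distrib, ← mul_sum, sum_const, nsmul_eq_mul]
      _ ≤ L * (N * K3) + N * (L * P) := by
          have h5 := hom n hn
          gcongr
          exact le_mul_of_one_le_left (by linarith) hL1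
      _ = _ := by rw [hK4]; ring
  have hbad : ∀ n ∈ Icc 1 x, ∀ m ∈ Icc 1 x, |∑ v ∈ Bx 1 H, Δ v n * Δ v m| ≤ N * (L * K4) := by
    intro n hn m hm
    calc _ ≤ ∑ v ∈ Bx 1 H, |Δ v n * Δ v m| := abs_sum_le_sum_abs _ _
      _ ≤ ∑ v ∈ Bx 1 H, (1 / 2 * Δ v n ^ 2 + 1 / 2 * Δ v m ^ 2) := by
          apply sum_le_sum
          intro v _
          rw [abs_mul]
          have := sq_nonneg (|Δ v n| - |Δ v m|)
          rw [sub_sq, sq_abs, sq_abs] at this
          linarith
      _ = 1 / 2 * ∑ v ∈ Bx 1 H, Δ v n ^ 2 + 1 / 2 * ∑ v ∈ Bx 1 H, Δ v m ^ 2 := by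
          rw [sum_add_distrib, mul_sum, mul_sum]
      _ ≤ _ := by
          have h4 := hQ n hn
          have h5 := hQ m hm
          linarith
  have hgood : ∀ n ∈ Icc 1 x, ∀ m ∈ Icc 1 x, dd g g' n m ≠ 0 →
      |∑ v ∈ Bx 1 H, Δ v n * Δ v m| ≤ N * (3 * (P + 1) * η + 9 * P * (Real.exp (4 * sd n m) - 1)) := by
    intro n hn m hm hd
    have hd' : dd g g' m n ≠ 0 := by
      rw [← Int.natAbs_ne_zero, dd_symm, Int.natAbs_ne_zero]; exact hd
    have g1 := (hpair n hn m hm hd).1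
    have g2 := (hpair n hn m hm hd).2.1
    have g3 := (hpair m hm n hn hd').2.1
    have es : sg z (ev g n * ev g' m - ev g m * ev g' n).natAbs = sd n m := rfl
    have es' : sg z (ev g m * ev g' n - ev g n * ev g' m).natAbs = sd n m := by
      have : sg z (ev g m * ev g' n - ev g n * ev g' m).natAbs = sg z (dd g g' m n).natAbs := rfl
      rw [this, dd_symm]
    rw [es] at g1 g2
    rw [es'] at g3
    have e3 : ∑ v ∈ Bx 1 H, om L (lf (ev g m) (ev g' m) (G m) v) * MM (primorial z) (lf (ev g n) (ev g' n) (G n) v) =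
        ∑ v ∈ Bx 1 H, MM (primorial z) (F n v) * om L (F m v) := sum_congr rfl fun v _ => mul_comm _ _
    have e4 : ∑ v ∈ Bx 1 H, MM (primorial z) (lf (ev g m) (ev g' m) (G m) v) *
        MM (primorial z) (lf (ev g n) (ev g' n) (G n) v) =
        ∑ v ∈ Bx 1 H, MM (primorial z) (F n v) * MM (primorial z) (F m v) := sum_congr rfl fun v _ => mul_comm _ _
    rw [e3, e4] at g3
    have e1 : ∑ v ∈ Bx 1 H, Δ v n * Δ v m =
        (∑ v ∈ Bx 1 H, om L (F n v) * om L (F m v) - ∑ v ∈ Bx 1 H, MM (primorial z) (F n v) * MM (primorial z) (F m v)) -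
        (∑ v ∈ Bx 1 H, om L (F n v) * MM (primorial z) (F m v) - ∑ v ∈ Bx 1 H, MM (primorial z) (F n v) * MM (primorial z) (F m v)) -
        (∑ v ∈ Bx 1 H, MM (primorial z) (F n v) * om L (F m v) - ∑ v ∈ Bx 1 H, MM (primorial z) (F n v) * MM (primorial z) (F m v)) := by
      simp only [← sum_sub_distrib]
      apply sum_congr rfl
      intro v _
      rw [hΔ]
      ring
    rw [e1]
    refine (abs_sub _ _).trans ?_
    refine (add_le_add_left (abs_sub _ _) _).trans ?_
    refine (add_le_add (add_le_add g1 g2) g3).trans (le_of_eq ?_)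
    ring
  -- the double sum
  have hexp0 : ∀ n m, 0 ≤ Real.exp (4 * sd n m) - 1 := by
    intro n m
    have h4 := hsd0 n m
    have := Real.add_one_le_exp (4 * sd n m)
    linarith
  have htot : ∑ n ∈ Icc 1 x, ∑ m ∈ Icc 1 x, |∑ v ∈ Bx 1 H, Δ v n * Δ v m| ≤
      x ^ 2 * N * (3 * (P + 1) * η) + x ^ 2 * N * (36 * (P * ζ)) + x * N * (2 * (L * K4)) := by
    calc ∑ n ∈ Icc 1 x, ∑ m ∈ Icc 1 x, |∑ v ∈ Bx 1 H, Δ v n * Δ v m|
        ≤ ∑ n ∈ Icc 1 x, ∑ m ∈ Icc 1 x, ((N * (3 * (P + 1) * η) + N * (9 * P) * (Real.exp (4 * sd n m) - 1)) +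
            (if dd g g' n m = 0 then N * (L * K4) else 0)) := by
          apply sum_le_sum
          intro n hn
          apply sum_le_sum
          intro m hm
          by_cases hd : dd g g' n m = 0
          · rw [if_pos hd]
            have h4 := hbad n hn m hm
            have h5 : 0 ≤ N * (3 * (P + 1) * η) + N * (9 * P) * (Real.exp (4 * sd n m) - 1) := by
              have := hexp0 n m
              positivity
            linarith
          · rw [if_neg hd, add_zero]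
            refine (hgood n hn m hm hd).trans (le_of_eq ?_)
            ring
      _ = ∑ n ∈ Icc 1 x, (x * (N * (3 * (P + 1) * η)) + N * (9 * P) * ∑ m ∈ Icc 1 x, (Real.exp (4 * sd n m) - 1) +
            (((Icc 1 x).filter (fun m => dd g g' n m = 0)).card : ℝ) * (N * (L * K4))) := by
          apply sum_congr rfl
          intro n _
          rw [sum_add_distrib, sum_add_distrib, sum_const, Nat.card_Icc, Nat.add_sub_cancel, nsmul_eq_mul, ← mul_sum,
            ← sum_filter, sum_const, nsmul_eq_mul]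
      _ ≤ ∑ n ∈ Icc 1 x, (x * (N * (3 * (P + 1) * η)) + N * (9 * P) * (4 * x * ζ) + 2 * (N * (L * K4))) := by
          apply sum_le_sum
          intro n hn
          have h5 := hmomx n hn
          have h6 : (((Icc 1 x).filter (fun m => dd g g' n m = 0)).card : ℝ) ≤ 2 := by exact_mod_cast bad_le g g' hg x n
          have h7 : 0 ≤ N * (L * K4) := by positivity
          gcongr
      _ = _ := by
          rw [sum_const, Nat.card_Icc, Nat.add_sub_cancel, nsmul_eq_mul]
          ring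
  have hsq := sq_sum (Bx 1 H) (Icc 1 x) w hw Δ
  calc Cz z * ∑ v ∈ Bx 1 H, ‖∑ n ∈ Icc 1 x, w n * ((Δ v n : ℝ) : ℂ)‖ ^ 2
      ≤ Cz z * (x ^ 2 * N * (3 * (P + 1) * η) + x ^ 2 * N * (36 * (P * ζ)) + x * N * (2 * (L * K4))) := by
        apply mul_le_mul_of_nonneg_left _ (by linarith)
        exact hsq.trans htot
    _ = x ^ 2 * N * (Cz z * (3 * (P + 1) * η)) + x ^ 2 * N * (36 * (Cz z ^ 3 * ζ)) + x * N * (Cz z * 2 * (L * K4)) := by
        rw [hP]; ring
    _ ≤ x ^ 2 * N * (ε / 4) + x ^ 2 * N * (ε / 4) + x * N * (ε / 2 * x) := by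
        have h4 : 36 * (Cz z ^ 3 * ζ) ≤ ε / 4 := by linarith
        have h5 : Cz z * 2 * (L * K4) ≤ ε / 2 * x := by
          have h7 : 4 * Cz z * K4 / ε * L = (4 * Cz z * K4 * L) / ε := by ring
          rw [h7, div_le_iff₀ hε] at hxA
          linarith
        gcongr
    _ = _ := by ring

end Pool.Agent.Helper24K9.PL
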