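import Pool.Agent.Helper82K9.PR.PR9

set_option autoImplicit false

/-! Two-parameter linear families of quadratics: the statements of the steps. -/

namespace Pool.Agent.Helper24K9.PL

open Finset Pool.Agent.Helper82K9.PR

/-- the linear form -/
def lf (a b c : ℤ) (v : Fin (1 + 1) → ℤ) : ℤ := v 0 * a + v 1 * b + c

/-- the value at `n` of the quadratic with the coefficients `g` -/
def ev (g : Fin 3 → ℤ) (n : ℕ) : ℤ := g 0 + g 1 * n + g 2 * n ^ 2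

/-- the coefficients of the second factor of `ev g n * ev g' m - ev g m * ev g' n` -/
def cA (g g' : Fin 3 → ℤ) : ℤ := g 2 * g' 1 - g' 2 * g 1
def cB (g g' : Fin 3 → ℤ) : ℤ := g 2 * g' 0 - g' 2 * g 0
def cC (g g' : Fin 3 → ℤ) : ℤ := g 1 * g' 0 - g' 1 * g 0

/-- linearly independent quadratics without common zero -/
def Nz (g g' : Fin 3 → ℤ) : Prop := cB g g' ^ 2 ≠ cA g g' * cC g g' ∨ (cA g g' = 0 ∧ cB g g' = 0 ∧ cC g g' ≠ 0)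

def dd (g g' : Fin 3 → ℤ) (n m : ℕ) : ℤ := ev g n * ev g' m - ev g m * ev g' n

/-- [LIN] exponential moment of the large prime factors of the values of a linear polynomial -/
def S_LIN : Prop := ∀ C : ℝ, 0 ≤ C → ∀ z x Y : ℕ, 1 ≤ z → ∀ a b : ℤ,
  (∀ p : ℕ, p.Prime → z < p → (p : ℤ) ∣ a → ¬ (p : ℤ) ∣ b) → (∀ m ∈ Icc 1 x, (a * m + b).natAbs ≤ Y) →
  ∑ m ∈ Icc 1 x, Real.exp (C * sg z (a * m + b).natAbs) ≤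
    x * Real.exp (C * Real.exp C / z) + Real.exp (C * Real.exp C * ∑ p ∈ Nat.primesLE Y, (p : ℝ)⁻¹)

/-- [MOM] exponential moment of the large prime factors of the determinants -/
def S_MOM : Prop := ∀ g g' : Fin 3 → ℤ, Nz g g' → ∀ c : ℝ, 0 ≤ c → ∃ K : ℝ, 0 ≤ K ∧ ∃ z0 : ℕ, 1 ≤ z0 ∧ ∀ z : ℕ, z0 ≤ z →
  ∃ x0 : ℕ, ∀ x : ℕ, x0 ≤ x → ∀ n ∈ Icc 1 x,
    ∑ m ∈ Icc 1 x, (Real.exp (c * sg z (dd g g' n m).natAbs) - 1) ≤ 4 * x * (Real.exp (K / z) - 1)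

/-- [CNT] the number of the vectors with a value divisible by `p` -/
def S_CNT : Prop := ∀ H p : ℕ, p.Prime → 4 * p ^ 2 ≤ 2 * H + 1 → ∀ a b c : ℤ, ¬ ((p : ℤ) ∣ a ∧ (p : ℤ) ∣ b) →
  ∑ v ∈ Bx 1 H, dv p (lf a b c v) ≤ 2 * (Bx 1 H).card * (1 / p)

/-- [COMB] two forms -/
def S_COMB : Prop := ∀ (B0 : ℕ) (C η : ℝ), 0 < η → ∀ z : ℕ, ∃ H0 : ℕ, 3 ≤ H0 ∧ ∀ H : ℕ, H0 ≤ H → ∀ X : ℕ, 1 ≤ X →
  (X : ℝ) ≤ Real.log H ^ B0 → ∀ a b c a' b' c' : ℤ, |(a : ℝ)| ≤ X → |(b : ℝ)| ≤ X → |(a' : ℝ)| ≤ X → |(b' : ℝ)| ≤ X →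
  |(c : ℝ)| ≤ C * H * X → |(c' : ℝ)| ≤ C * H * X → a * b' - a' * b ≠ 0 →
  (∀ p : ℕ, p.Prime → z < p → ¬ ((p : ℤ) ∣ a ∧ (p : ℤ) ∣ b)) → (∀ p : ℕ, p.Prime → z < p → ¬ ((p : ℤ) ∣ a' ∧ (p : ℤ) ∣ b')) →
  |∑ v ∈ Bx 1 H, om (Real.log H) (lf a b c v) * om (Real.log H) (lf a' b' c' v) -
    ∑ v ∈ Bx 1 H, MM (primorial z) (lf a b c v) * MM (primorial z) (lf a' b' c' v)| ≤
    (Bx 1 H).card * (Cz z ^ 2 * (η + 3 * (Real.exp (4 * sg z (a * b' - a' * b).natAbs) - 1)) + η) ∧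
  |∑ v ∈ Bx 1 H, om (Real.log H) (lf a b c v) * MM (primorial z) (lf a' b' c' v) -
    ∑ v ∈ Bx 1 H, MM (primorial z) (lf a b c v) * MM (primorial z) (lf a' b' c' v)| ≤
    (Bx 1 H).card * (Cz z ^ 2 * (η + 3 * (Real.exp (4 * sg z (a * b' - a' * b).natAbs) - 1)) + η) ∧
  ∑ v ∈ Bx 1 H, om (Real.log H) (lf a b c v) ≤
    (Bx 1 H).card * (2 * Cz z * Real.exp (2 * sg z (a * b' - a' * b).natAbs) + 1)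

/-- [SEC] the second moment -/
def S_SEC : Prop := ∀ g g' : Fin 3 → ℤ, Nz g g' → ∀ (B0 : ℕ) (C ε : ℝ), 0 < ε → ∃ z0 : ℕ, 1 ≤ z0 ∧ ∀ z : ℕ, z0 ≤ z →
  ∃ A : ℕ, 3 ≤ A ∧ ∀ H : ℕ, A ≤ H → ∀ x : ℕ, A * Real.log H ≤ x → (x : ℝ) ≤ Real.log H ^ B0 → ∀ G : ℕ → ℤ,
  (∀ n ∈ Icc 1 x, |(G n : ℝ)| ≤ C * H * (n : ℝ) ^ 2) → ∀ w : ℕ → ℂ, (∀ n, ‖w n‖ ≤ 1) →
  Cz z * ∑ v ∈ Bx 1 H, ‖∑ n ∈ Icc 1 x, w n * ((om (Real.log H) (lf (ev g n) (ev g' n) (G n) v) -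
    MM (primorial z) (lf (ev g n) (ev g' n) (G n) v) : ℝ) : ℂ)‖ ^ 2 ≤ ε * x ^ 2 * (Bx 1 H).card

/-- the coefficients of the member of the family -/
def mem (g g' h : Fin 3 → ℤ) (v : Fin (1 + 1) → ℤ) : Fin (2 + 1) → ℤ := fun i => h i + v 0 * g i + v 1 * g' i

/-- [ALL] the asymptotic formula at all places -/
def S_ALL : Prop := ∀ g g' : Fin 3 → ℤ, Nz g g' → ∀ (B0 : ℕ) (C ε : ℝ), 0 < ε → ∃ z0 : ℕ, 1 ≤ z0 ∧ ∀ z : ℕ, z0 ≤ z →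
  ∃ A : ℕ, 3 ≤ A ∧ ∀ H : ℕ, A ≤ H → ∀ x : ℕ, A * Real.log H ≤ x → (x : ℝ) ≤ Real.log H ^ B0 → ∀ h : Fin 3 → ℤ,
  (∀ i, |(h i : ℝ)| ≤ C * H) →
  (({v ∈ Bx 1 H | ∃ y ≤ x, ε * x < |∑ n ∈ Icc 1 y, om (Real.log H) (pv (mem g g' h v) n) -
    SS z (fun _ : Fin 1 => 0) (mem g g' h v) * y|} : Finset _).card : ℝ) ≤ ε * (Bx 1 H).card

end Pool.Agent.Helper24K9.PL
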